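import Pool.Agent.Lib.MP_579b69_co.Global
import Pool.Agent.Lib.MP_579b69_co.Play
import Pool.Agent.Lib.MP_579b69_co.Barrier

/-!
# Containment on the eighth plane with sub-square-root spreading

For `q < 1` Spreader wins the game `(E, q, g)` on the eighth plane whenever
`g t / t ^ (1/3) → ∞`; hence `inf q(E, g) = 1 = inf q(E, ∞)`, in particular for
`g t = ⌊t ^ (1/2 - ε)⌋`, `0 < ε < 1/6`.
-/

namespace Pool.Agent.Results.MP_579b69_co.SubSqrtSpreading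

open Containment Contain Filter

/-- the frame of the eighth plane -/
def eFrame (x w : ℕ) : EV := ⟨((x : ℤ), (x : ℤ) + w), by positivity, by omega⟩

theorem eFrame_isFrame : IsFrame EAdj eFrame where
  up := fun l p => ⟨by simp [eFrame]; ring, Or.inl rfl⟩
  right := fun l p => ⟨by simp [eFrame]; ring, Or.inr (by simp [eFrame])⟩
  inj := fun l p l' p' h => by
    have h1 := congrArg Subtype.val h
    simp only [eFrame, Prod.mk.injEq] at h1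
    omega

theorem spreader_wins {q : ℝ} (hq0 : 0 < q) (hq1 : q < 1) {g : ℕ → ℕ}
    (hg : ∀ C : ℝ, ∀ᶠ t : ℕ in atTop, C * (t : ℝ) ^ ((1 : ℝ) / 3) ≤ g t) :
    ∃ B0 : Finset EV, ¬ ContainerWins EAdj q (fun t => (g t : ℕ∞)) B0 := by
  obtain ⟨C, hC⟩ := global eFrame_isFrame q hq0 hq1
  obtain ⟨A, hA⟩ := eventually_atTop.mp (hg ((C : ℝ) ^ ((1 : ℝ) / 3)))
  obtain ⟨τ, K, G, O0, h1, h2, h3, h4, h5, h6⟩ := hC A
  refine ⟨O0, ?_⟩
  refine spreader_wins_of_milestones q hq0 _ τ K G O0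
    (fun k => {v | ∃ x y, k ≤ x + y ∧ eFrame x y = v}) h1 ?_ h4 h5 ?_ ?_
  · intro k t hkt _
    have hτ0 : τ 0 ≤ τ k := h1.monotone (Nat.zero_le k)
    have hgt := hA t (by omega)
    have hK : (K k : ℝ) ≤ g t := by
      refine le_trans ?_ hgt
      have hK3 : ((K k : ℝ)) ^ (3 : ℕ) ≤ C * t := by
        have := h3 k
        have h7 : C * τ k ≤ C * t := Nat.mul_le_mul_left _ (by omega)
        exact_mod_cast this.trans h7
      have h8 : (K k : ℝ) = ((K k : ℝ) ^ (3 : ℕ)) ^ ((1 : ℝ) / 3) := by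
        rw [← Real.rpow_natCast, ← Real.rpow_mul (by positivity)]
        norm_num
      rw [h8, ← Real.mul_rpow (by positivity) (by positivity)]
      exact Real.rpow_le_rpow (by positivity) hK3 (by norm_num)
    exact_mod_cast hK
  · intro k O B hG hd hB hc
    obtain ⟨x, y, h7, h8⟩ := h6 k O B hG hd hB hc
    exact ⟨_, h8, x, y, h7, rfl⟩
  · intro F hF
    have hinj : Function.Injective (fun p : ℕ × ℕ => eFrame p.1 p.2) := by
      intro p p' h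
      have := eFrame_isFrame.inj _ _ _ _ h
      exact Prod.ext this.1 this.2
    have hpre : ((fun p : ℕ × ℕ => eFrame p.1 p.2) ⁻¹' F).Finite :=
      hF.preimage hinj.injOn
    obtain ⟨M, hM⟩ := (hpre.image (fun p : ℕ × ℕ => p.1 + p.2)).bddAbove
    refine ⟨M + 1, ?_⟩
    rintro k hk v hv ⟨x, y, h7, rfl⟩
    have : x + y ≤ M := hM ⟨(x, y), hv, rfl⟩
    omega

theorem sInf_eq_one {S : Set ℝ} (h1 : Set.Ioi 1 ⊆ S) (h2 : S ⊆ Set.Ici 1) : sInf S = 1 := by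
  apply le_antisymm
  · apply le_of_forall_gt_imp_ge_of_dense
    intro x hx
    exact csInf_le ⟨1, fun y hy => h2 hy⟩ (h1 hx)
  · exact le_csInf ⟨2, h1 (by norm_num)⟩ (fun y hy => h2 hy)

theorem Ioi_subset (g : ℕ → ℕ∞) : Set.Ioi 1 ⊆ qSet EAdj g := by
  intro q hq
  exact ⟨lt_trans one_pos hq, fun B0 =>
    (containerWins_E hq B0).mono (fun t => le_top)⟩

theorem subset_Ici {g : ℕ → ℕ}
    (hg : ∀ C : ℝ, ∀ᶠ t : ℕ in atTop, C * (t : ℝ) ^ ((1 : ℝ) / 3) ≤ g t) :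
    qSet EAdj (fun t => (g t : ℕ∞)) ⊆ Set.Ici 1 := by
  intro q hq
  by_contra hlt
  obtain ⟨B0, hB0⟩ := spreader_wins hq.1 (not_le.mp hlt) hg
  exact hB0 (hq.2 B0)

theorem rpow_key {a b : ℝ} (ha : 0 ≤ a) (hab : a < b) (C : ℝ) :
    ∀ᶠ t : ℕ in atTop, C * (t : ℝ) ^ a + 1 ≤ (t : ℝ) ^ b := by
  have h := (tendsto_rpow_atTop (sub_pos.mpr hab)).comp tendsto_natCast_atTop_atTop
  filter_upwards [h.eventually_ge_atTop (C + 1), eventually_ge_atTop 1] with t ht ht1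
  have ht1' : (1 : ℝ) ≤ t := by exact_mod_cast ht1
  have h0 : (0 : ℝ) < t := by linarith
  have h1 : (1 : ℝ) ≤ (t : ℝ) ^ a := Real.one_le_rpow ht1' ha
  have h2 : (t : ℝ) ^ b = (t : ℝ) ^ (b - a) * (t : ℝ) ^ a := by
    rw [← Real.rpow_add h0]; congr 1; ring
  have h3 : C + 1 ≤ (t : ℝ) ^ (b - a) := ht
  rw [h2]
  calc C * (t : ℝ) ^ a + 1 ≤ (C + 1) * (t : ℝ) ^ a := by linarith
    _ ≤ (t : ℝ) ^ (b - a) * (t : ℝ) ^ a := by
      apply mul_le_mul_of_nonneg_right h3 (by positivity)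

theorem top_subset_Ici : qSet EAdj (fun _ => ⊤) ⊆ Set.Ici 1 := by
  have hg : ∀ C : ℝ, ∀ᶠ t : ℕ in atTop, C * (t : ℝ) ^ ((1 : ℝ) / 3) ≤ (t : ℕ) := by
    intro C
    filter_upwards [rpow_key (a := 1 / 3) (b := 1) (by norm_num) (by norm_num) C] with t ht
    rw [Real.rpow_one] at ht
    linarith
  intro q hq
  exact subset_Ici (g := fun t => t) hg ⟨hq.1, fun B0 => (hq.2 B0).mono (fun t => le_top)⟩

theorem rpow_condition {ε : ℝ} (hε : ε < 1 / 6) (C : ℝ) :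
    ∀ᶠ t : ℕ in atTop, C * (t : ℝ) ^ ((1 : ℝ) / 3) ≤ (⌊(t : ℝ) ^ (1 / 2 - ε)⌋₊ : ℕ) := by
  filter_upwards [rpow_key (a := 1 / 3) (b := 1 / 2 - ε) (by norm_num) (by linarith) C] with t ht
  have := Nat.lt_floor_add_one ((t : ℝ) ^ (1 / 2 - ε))
  linarith

/-- **Negative answer to Q1.**  `inf q(E, ∞) = 1`; `inf q(E, g) = 1` whenever
`g t / t ^ (1/3) → ∞`; in particular `inf q(E, t ^ (1/2 - ε)) = inf q(E, ∞)` for `0 < ε < 1/6`, and
the statement of Q1 is false. -/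
theorem result :
    sInf (qSet EAdj (fun _ => ⊤)) = 1 ∧
    (∀ g : ℕ → ℕ, (∀ C : ℝ, ∀ᶠ t : ℕ in atTop, C * (t : ℝ) ^ ((1 : ℝ) / 3) ≤ g t) →
      sInf (qSet EAdj (fun t => (g t : ℕ∞))) = 1) ∧
    (∀ ε : ℝ, 0 < ε → ε < 1 / 6 →
      sInf (qSet EAdj (fun t => (⌊(t : ℝ) ^ (1 / 2 - ε)⌋₊ : ℕ∞))) =
        sInf (qSet EAdj (fun _ => ⊤))) ∧
    ¬ (∀ ε : ℝ, 0 < ε →
      sInf (qSet EAdj (fun t => (⌊(t : ℝ) ^ (1 / 2 - ε)⌋₊ : ℕ∞))) <
        sInf (qSet EAdj (fun _ => ⊤)) ∧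
      sInf (qSet ZAdj (fun t => (⌊(t : ℝ) ^ (1 / 2 - ε)⌋₊ : ℕ∞))) <
        sInf (qSet ZAdj (fun _ => ⊤))) := by
  have htop : sInf (qSet EAdj (fun _ => ⊤)) = 1 := sInf_eq_one (Ioi_subset _) top_subset_Ici
  have hmain : ∀ g : ℕ → ℕ, (∀ C : ℝ, ∀ᶠ t : ℕ in atTop, C * (t : ℝ) ^ ((1 : ℝ) / 3) ≤ g t) →
      sInf (qSet EAdj (fun t => (g t : ℕ∞))) = 1 := by
    intro g hg
    exact sInf_eq_one (Ioi_subset _) (subset_Ici hg)
  have heps : ∀ ε : ℝ, 0 < ε → ε < 1 / 6 →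
      sInf (qSet EAdj (fun t => (⌊(t : ℝ) ^ (1 / 2 - ε)⌋₊ : ℕ∞))) =
        sInf (qSet EAdj (fun _ => ⊤)) := by
    intro ε _ hε
    rw [htop]
    exact hmain (fun t => ⌊(t : ℝ) ^ (1 / 2 - ε)⌋₊) (rpow_condition hε)
  refine ⟨htop, hmain, heps, ?_⟩
  intro h
  have h1 := (h (1 / 12) (by norm_num)).1
  rw [heps (1 / 12) (by norm_num) (by norm_num)] at h1
  exact lt_irrefl _ h1

end Pool.Agent.Results.MP_579b69_co.SubSqrtSpreading
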